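import Pool.Agent.H175G.Stmts2

/-! Task T11a: `C₅`-free, one nontrivial clique outside `N(v)`. -/

namespace Pool.Agent.H9Z

open Finset Classical
open Pool.Agent.H175G

variable {V : Type} {G : SimpleGraph V}

/-- two distinct vertices of `Q` missed by a small vertex -/
lemma two_missed {Q : Finset V} {m : V} (h : 2 ≤ (Q \ nb G Q m).card) :
    ∃ a ∈ Q, ∃ b ∈ Q, a ≠ b ∧ ¬ G.Adj m a ∧ ¬ G.Adj m b := by
  obtain ⟨a, ha, b, hb, hab⟩ := Finset.one_lt_card.1 (show 1 < (Q \ nb G Q m).card by omega)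
  rw [mem_sdiff, mem_nb] at ha hb
  exact ⟨a, ha.1, b, hb.1, hab, fun h => ha.2 ⟨ha.1, h⟩, fun h => hb.2 ⟨hb.1, h⟩⟩

lemma not_two_missed {Q : Finset V} {m : V} (h : ¬ 2 ≤ (Q \ nb G Q m).card) {a b : V}
    (ha : a ∈ Q) (hb : b ∈ Q) (hab : a ≠ b) (hma : ¬ G.Adj m a) : G.Adj m b := by
  by_contra hmb
  apply h
  have : ({a, b} : Finset V) ⊆ Q \ nb G Q m := by
    intro x hx
    rw [mem_insert, mem_singleton] at hx
    rw [mem_sdiff, mem_nb]
    rcases hx with rfl | rfl
    · exact ⟨ha, fun h => hma h.2⟩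
    · exact ⟨hb, fun h => hmb h.2⟩
  calc 2 = ({a, b} : Finset V).card := (card_pair hab).symm
    _ ≤ _ := card_le_card this

theorem zpA_stmt (hA : AttachStmt) (hT : TwoStmt) (hZ : ZStmt) : ZpAStmt := by
  obtain ⟨BA, hA⟩ := hA
  obtain ⟨BT, hT⟩ := hT
  obtain ⟨KZ, hZ⟩ := hZ
  refine ⟨BT (BA 0 1 2) KZ 8, ?_⟩
  intro V G hg hp hc v M Q I hM hQI hvQ hvI hQ hI hQI' h3
  have hvq : ∀ x ∈ Q, ¬ G.Adj v x := fun x hx => hQI x (mem_union_left _ hx)
  have hvi : ∀ x ∈ I, ¬ G.Adj v x := fun x hx => hQI x (mem_union_right _ hx)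
  -- small vertices form a clique
  have hSmall : ∀ m ∈ M, 2 ≤ (Q \ nb G Q m).card → ∀ m' ∈ M, 2 ≤ (Q \ nb G Q m').card →
      m ≠ m' → G.Adj m m' := by
    intro m hm hm2 m' hm' hm2' hne
    obtain ⟨a, ha, b, hb, hab, hma, hmb⟩ := two_missed hm2
    obtain ⟨c, hc', d, hd, hcd, hmc, hmd⟩ := two_missed hm2'
    by_contra hmm
    have h1 := hM m hm
    have h2 := hM m' hm'
    have hva := hvq a ha
    have hvb := hvq b hb
    have hvc := hvq c hc'
    have hvd := hvq d hd
    have habj := hQ a ha b hb hab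
    have hcdj := hQ c hc' d hd hcd
    -- m' adjacent to a or b
    have key : ∀ x ∈ Q, ∀ y ∈ Q, ¬ G.Adj m x → G.Adj m' x → ¬ G.Adj m' y → G.Adj m y → False := by
      intro x hx y hy hmx hmx' hmy' hmy
      have hxy : x ≠ y := by rintro rfl; exact hmx hmy
      have hxyj := hQ x hx y hy hxy
      have hvx := hvq x hx
      have hvy := hvq y hy
      clear hva hvb hvc hvd habj hcdj hma hmb hmc hmd
      gp
    by_cases hma' : G.Adj m' a
    · by_cases hmc' : G.Adj m c
      · exact key a ha c hc' hma hma' hmc hmc'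
      · by_cases hmd' : G.Adj m d
        · exact key a ha d hd hma hma' hmd hmd'
        · clear hva hvb habj hma hmb hma' key
          gp
    · by_cases hmb' : G.Adj m' b
      · by_cases hmc' : G.Adj m c
        · exact key b hb c hc' hmb hmb' hmc hmc'
        · by_cases hmd' : G.Adj m d
          · exact key b hb d hd hmb hmb' hmd hmd'
          · clear hva hvb habj hma hmb hmb' key hma'
            gp
      · clear hvc hvd hcdj hmc hmd key
        gp
  -- small vertices are anti to I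
  have hSI : ∀ m ∈ M, 2 ≤ (Q \ nb G Q m).card → ∀ i ∈ I, ¬ G.Adj m i := by
    intro m hm hm2 i hi hmi
    obtain ⟨a, ha, b, hb, hab, hma, hmb⟩ := two_missed hm2
    have h1 := hM m hm
    have hva := hvq a ha
    have hvb := hvq b hb
    have hvi' := hvi i hi
    have habj := hQ a ha b hb hab
    have hai := hQI' a ha i hi
    have hbi := hQI' b hb i hi
    have hne : v ≠ i := fun h => hvI (h ▸ hi)
    gp
  -- neighbourhoods of small vertices
  have hSW : ∀ m ∈ M, 2 ≤ (Q \ nb G Q m).card → ∀ m' ∈ M, 2 ≤ (Q \ nb G Q m').card →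
      ∀ z ∈ Q, G.Adj m z → G.Adj m' z → ∀ z' ∈ Q, G.Adj m z' → G.Adj m' z' := by
    intro m hm hm2 m' hm' hm2' z hz hmz hmz' z' hz' hmz1
    by_contra hmz2
    have hne : m ≠ m' := by rintro rfl; exact hmz2 hmz1
    have hadj := hSmall m hm hm2 m' hm' hm2' hne
    have hzz : z ≠ z' := by rintro rfl; exact hmz2 hmz'
    have hzj := hQ z hz z' hz' hzz
    have h1 := hM m hm
    have h2 := hM m' hm'
    have hvz := hvq z hz
    have hvz' := hvq z' hz'
    gp
  have hSW' : ∀ m ∈ M, 2 ≤ (Q \ nb G Q m).card → ∀ m' ∈ M, 2 ≤ (Q \ nb G Q m').card →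
      ∀ z ∈ Q, G.Adj m z → G.Adj m' z → nb G Q m = nb G Q m' := by
    intro m hm hm2 m' hm' hm2' z hz hmz hmz'
    ext z'
    rw [mem_nb, mem_nb]
    constructor
    · exact fun h => ⟨h.1, hSW m hm hm2 m' hm' hm2' z hz hmz hmz' z' h.1 h.2⟩
    · exact fun h => ⟨h.1, hSW m' hm' hm2' m hm hm2 z hz hmz' hmz z' h.1 h.2⟩
  -- the sets
  set Sm := M.filter (fun m => 2 ≤ (Q \ nb G Q m).card) with hSm
  set Fu := M.filter (fun m => ¬ 2 ≤ (Q \ nb G Q m).card) with hFu
  set Q0 := Q.filter (fun q => ∃ m ∈ Fu, ¬ G.Adj m q) with hQ0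
  set S1 := Sm.filter (fun m => ∃ z ∈ Q \ Q0, G.Adj m z) with hS1
  have memSm : ∀ m, m ∈ Sm ↔ m ∈ M ∧ 2 ≤ (Q \ nb G Q m).card := fun m => by
    rw [hSm, mem_filter]
  have memFu : ∀ m, m ∈ Fu ↔ m ∈ M ∧ ¬ 2 ≤ (Q \ nb G Q m).card := fun m => by
    rw [hFu, mem_filter]
  have memQ0 : ∀ q, q ∈ Q0 ↔ q ∈ Q ∧ ∃ m ∈ Fu, ¬ G.Adj m q := fun q => by
    rw [hQ0, mem_filter]
  have memS1 : ∀ m, m ∈ S1 ↔ m ∈ Sm ∧ ∃ z ∈ Q \ Q0, G.Adj m z := fun q => by
    rw [hS1, mem_filter]
  have hMQ : ∀ x ∈ M, x ∉ Q := fun x hx hx' => hvq x hx' (hM x hx)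
  have hMI : ∀ x ∈ M, x ∉ I := fun x hx hx' => hvi x hx' (hM x hx)
  -- Q0 has at most one element
  have hQ0s : ∀ q ∈ Q0, ∀ q' ∈ Q0, q = q' := by
    intro q hq q' hq'
    by_contra hne
    obtain ⟨hqQ, m, hm, hmq⟩ := (memQ0 q).1 hq
    obtain ⟨hqQ', m', hm', hmq'⟩ := (memQ0 q').1 hq'
    obtain ⟨hmM, hm2⟩ := (memFu m).1 hm
    obtain ⟨hmM', hm2'⟩ := (memFu m').1 hm'
    have e1 : G.Adj m q' := not_two_missed hm2 hqQ hqQ' hne hmq
    have e2 : G.Adj m' q := not_two_missed hm2' hqQ' hqQ (Ne.symm hne) hmq'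
    have h1 := hM m hmM
    have h2 := hM m' hmM'
    have hqq := hQ q hqQ q' hqQ' hne
    have hvz := hvq q hqQ
    have hvz' := hvq q' hqQ'
    by_cases hmm : G.Adj m m'
    · obtain ⟨r, hr, hrn⟩ : ∃ r ∈ Q, r ∉ ({q, q'} : Finset V) := by
        by_contra hcon
        push Not at hcon
        have : Q.card ≤ ({q, q'} : Finset V).card := card_le_card hcon
        rw [card_pair hne] at this
        omega
      rw [mem_insert, mem_singleton, not_or] at hrn
      have e3 : G.Adj m r := not_two_missed hm2 hqQ hr (Ne.symm hrn.1) hmq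
      have e4 : G.Adj m' r := not_two_missed hm2' hqQ' hr (Ne.symm hrn.2) hmq'
      have e5 := hQ r hr q hqQ hrn.1
      have e6 := hQ r hr q' hqQ' hrn.2
      have e7 := hvq r hr
      gp
    · gp
  -- full vertices are complete to Q \ Q0
  have hFQ : ∀ f ∈ Fu, ∀ z ∈ Q \ Q0, G.Adj f z := by
    intro f hf z hz
    rw [mem_sdiff] at hz
    by_contra h
    exact hz.2 ((memQ0 z).2 ⟨hz.1, f, hf, h⟩)
  -- S1 is anti to Fu
  have hS1F : ∀ m ∈ S1, ∀ f ∈ Fu, ¬ G.Adj m f := by
    intro m hm f hf hmf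
    obtain ⟨hmS, z, hz, hmz⟩ := (memS1 m).1 hm
    obtain ⟨hmM, hm2⟩ := (memSm m).1 hmS
    obtain ⟨hfM, hf2⟩ := (memFu f).1 hf
    have hfz := hFQ f hf z hz
    rw [mem_sdiff] at hz
    obtain ⟨a, ha, b, hb, hab, hma, hmb⟩ := two_missed hm2
    have h1 := hM m hmM
    have h2 := hM f hfM
    have hvz := hvq z hz.1
    have key : ∀ x ∈ Q, ¬ G.Adj m x → G.Adj f x → False := by
      intro x hx hmx hfx
      have hzx : z ≠ x := by rintro rfl; exact hmx hmz
      have hzxj := hQ z hz.1 x hx hzx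
      have hvx := hvq x hx
      clear hma hmb
      gp
    by_cases hfa : G.Adj f a
    · exact key a ha hma hfa
    · exact key b hb hmb (not_two_missed hf2 ha hb hab hfa)
  -- S1 is anti to Q0
  have hS1Q : ∀ m ∈ S1, ∀ q ∈ Q0, ¬ G.Adj m q := by
    intro m hm q hq hmq
    obtain ⟨hqQ, f, hf, hfq⟩ := (memQ0 q).1 hq
    have hmf := hS1F m hm f hf
    obtain ⟨hmS, -⟩ := (memS1 m).1 hm
    obtain ⟨hmM, hm2⟩ := (memSm m).1 hmS
    obtain ⟨hfM, hf2⟩ := (memFu f).1 hf
    obtain ⟨a, ha, b, hb, hab, hma, hmb⟩ := two_missed hm2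
    have h1 := hM m hmM
    have h2 := hM f hfM
    have hqa : q ≠ a := by rintro rfl; exact hma hmq
    have hfa := not_two_missed hf2 hqQ ha hqa hfq
    have hqaj := hQ q hqQ a ha hqa
    have hva := hvq a ha
    have hvq' := hvq q hqQ
    clear hmb
    gp
  -- the first part
  have hU1 : BD G (BA 0 1 2) ((Q \ Q0) ∪ S1) := by
    let b : V → Finset V := fun x =>
      if x ∈ Q then (if h : ∃ m ∈ Sm, G.Adj m x then nb G Q h.choose else {x}) else nb G Q x
    have hbQ : ∀ x ∈ Q, x ∈ b x := by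
      intro x hx
      simp only [b, if_pos hx]
      split_ifs with h
      · rw [mem_nb]
        exact ⟨hx, h.choose_spec.2⟩
      · exact mem_singleton_self x
    have hbS : ∀ x ∈ Sm, b x = nb G Q x := by
      intro x hx
      simp only [b, if_neg (hMQ x ((memSm x).1 hx).1)]
    have hbadj : ∀ x ∈ Q, ∀ m ∈ Sm, (G.Adj m x ↔ b x = b m) := by
      intro x hx m hm
      rw [hbS m hm]
      constructor
      · intro h
        have hex : ∃ m ∈ Sm, G.Adj m x := ⟨m, hm, h⟩
        simp only [b, if_pos hx, dif_pos hex]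
        obtain ⟨h1, h2⟩ := hex.choose_spec
        rw [memSm] at h1 hm
        exact hSW' _ h1.1 h1.2 m hm.1 hm.2 x hx h2 h
      · intro h
        have := hbQ x hx
        rw [h, mem_nb] at this
        exact this.2
    have hmem : ∀ x ∈ (Q \ Q0) ∪ S1, x ∈ Q ∨ x ∈ Sm := by
      intro x hx
      rw [mem_union, mem_sdiff, memS1] at hx
      rcases hx with hx | hx
      · exact Or.inl hx.1
      · exact Or.inr hx.1
    have hSmadj : ∀ x ∈ Sm, ∀ y ∈ Sm, x ≠ y → G.Adj x y := by
      intro x hx y hy hne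
      rw [memSm] at hx hy
      exact hSmall x hx.1 hx.2 y hy.1 hy.2 hne
    have hres := hA V G Bool (Finset V) 0 1 ∅ ((Q \ Q0) ∪ S1) (fun x => decide (x ∈ Q))
      (fun s t => s = t) b BD.empty (by simp) ?_ ?_
    · rw [Fintype.card_bool, empty_union] at hres
      exact hres
    · intro x hx
      have hcl : Clq G (((∅ : Finset V) ∪ ((Q \ Q0) ∪ S1)).filter (fun y => b y = b x)) := by
        intro y hy z hz hyz
        rw [mem_filter, empty_union] at hy hz
        rcases hmem y hy.1 with hy1 | hy1 <;> rcases hmem z hz.1 with hz1 | hz1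
        · exact hQ y hy1 z hz1 hyz
        · exact ((hbadj y hy1 z hz1).2 (hy.2.trans hz.2.symm)).symm
        · exact (hbadj z hz1 y hy1).2 (hz.2.trans hy.2.symm)
        · exact hSmadj y hy1 z hz1 hyz
      convert BD.clq hcl
    · intro x hx y hy hb
      rw [empty_union] at hy
      have hxy : x ≠ y := fun h => hb (h ▸ rfl)
      rcases hmem x hx with hx1 | hx1 <;> rcases hmem y hy with hy1 | hy1
      · simp only [decide_eq_true hx1, decide_eq_true hy1]
        exact ⟨fun _ => trivial, fun _ => hQ x hx1 y hy1 hxy⟩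
      · have hyQ : y ∉ Q := hMQ y ((memSm y).1 hy1).1
        simp only [decide_eq_true hx1, decide_eq_false hyQ]
        constructor
        · intro h
          exact absurd ((hbadj x hx1 y hy1).1 h.symm) hb
        · intro h; exact absurd h (by simp)
      · have hxQ : x ∉ Q := hMQ x ((memSm x).1 hx1).1
        simp only [decide_eq_true hy1, decide_eq_false hxQ]
        constructor
        · intro h
          exact absurd ((hbadj y hy1 x hx1).1 h).symm hb
        · intro h; exact absurd h (by simp)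
      · have hxQ : x ∉ Q := hMQ x ((memSm x).1 hx1).1
        have hyQ : y ∉ Q := hMQ y ((memSm y).1 hy1).1
        simp only [decide_eq_false hyQ, decide_eq_false hxQ]
        exact ⟨fun _ => trivial, fun _ => hSmadj x hx1 y hy1 hxy⟩
  -- the second part
  have hU2 : BD G KZ ((Fu ∪ (Sm \ S1)) ∪ (Q0 ∪ I)) := by
    apply hZ V G hg hp v
    refine ⟨?_, ?_, ?_, ?_⟩
    · intro m hm
      rw [mem_union, mem_sdiff, memFu, memSm] at hm
      rcases hm with hm | hm
      · exact hM m hm.1
      · exact hM m hm.1.1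
    · intro n hn
      rw [mem_union, memQ0] at hn
      rcases hn with hn | hn
      · exact hvq n hn.1
      · exact hvi n hn
    · intro x hx y hy hxy
      rw [mem_union] at hx hy
      rcases hx with hx | hx <;> rcases hy with hy | hy
      · have := hQ0s x hx y hy
        subst this
        exact G.irrefl hxy
      · exact hQI' x ((memQ0 x).1 hx).1 y hy hxy
      · exact hQI' y ((memQ0 y).1 hy).1 x hx hxy.symm
      · exact hI x hx y hy hxy
    · intro hv
      rw [mem_union, memQ0] at hv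
      rcases hv with hv | hv
      · exact hvQ hv.1
      · exact hvI hv
  -- combine
  have hdisj : Disjoint ((Q \ Q0) ∪ S1) ((Fu ∪ (Sm \ S1)) ∪ (Q0 ∪ I)) := by
    rw [Finset.disjoint_left]
    intro x hx hx'
    rw [mem_union, mem_sdiff] at hx
    rw [mem_union, mem_union, mem_union, mem_sdiff] at hx'
    rcases hx with hx | hx
    · rcases hx' with (h | h) | h | h
      · exact hMQ x ((memFu x).1 h).1 hx.1
      · exact hMQ x ((memSm x).1 h.1).1 hx.1
      · exact hx.2 h
      · exact absurd (hQ x hx.1) (by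
          intro _
          -- x in Q and I
          obtain ⟨y, hy, hne⟩ : ∃ y ∈ Q, y ≠ x := by
            by_contra hcon
            push Not at hcon
            have : Q.card ≤ ({x} : Finset V).card := card_le_card (by
              intro y hy; rw [mem_singleton]; exact hcon y hy)
            rw [card_singleton] at this
            omega
          exact hQI' y hy x h (hQ y hy x hx.1 hne))
    · have hxS := ((memS1 x).1 hx).1
      have hxM := ((memSm x).1 hxS)
      rcases hx' with (h | h) | h | h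
      · exact ((memFu x).1 h).2 hxM.2
      · exact h.2 hx
      · exact hMQ x hxM.1 ((memQ0 x).1 h).1
      · exact hMI x hxM.1 h
  have hfin := hT V G (Bool × Bool × Bool) (BA 0 1 2) KZ ((Q \ Q0) ∪ S1)
    ((Fu ∪ (Sm \ S1)) ∪ (Q0 ∪ I))
    (fun x => (decide (x ∈ Q), decide (x ∈ Fu), decide (x ∈ Sm)))
    (fun s t => (s.1 = true ∧ (t.1 = true ∨ t.2.1 = true)) ∨ (s.2.2 = true ∧ t.2.2 = true))
    hdisj hU1 hU2 ?_
  · have hcard : Fintype.card (Bool × Bool × Bool) = 8 := by decide
    rw [hcard] at hfin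
    refine hfin.sub ?_
    intro x hx
    rw [mem_union, mem_union] at hx
    rw [mem_union, mem_union, mem_union, mem_union, mem_union, mem_sdiff, mem_sdiff]
    rcases hx with (hx | hx) | hx
    · by_cases h : 2 ≤ (Q \ nb G Q x).card
      · have h' := (memSm x).2 ⟨hx, h⟩
        by_cases h1 : x ∈ S1
        · exact Or.inl (Or.inr h1)
        · exact Or.inr (Or.inl (Or.inr ⟨h', h1⟩))
      · exact Or.inr (Or.inl (Or.inl ((memFu x).2 ⟨hx, h⟩)))
    · by_cases h : x ∈ Q0
      · exact Or.inr (Or.inr (Or.inl h))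
      · exact Or.inl (Or.inl ⟨hx, h⟩)
    · exact Or.inr (Or.inr (Or.inr hx))
  · intro x hx y hy
    simp only [decide_eq_true_eq]
    rw [mem_union, mem_sdiff] at hx
    rw [mem_union, mem_union, mem_union, mem_sdiff] at hy
    rcases hx with hx | hx
    · have hxS : x ∉ Sm := fun h => hMQ x ((memSm x).1 h).1 hx.1
      rcases hy with (hy | hy) | hy | hy
      · exact ⟨fun _ => Or.inl ⟨hx.1, Or.inr hy⟩, fun _ =>
          (hFQ y hy x (mem_sdiff.2 hx)).symm⟩
      · have hyQ : y ∉ Q := hMQ y ((memSm y).1 hy.1).1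
        have hyF : y ∉ Fu := fun h => ((memFu y).1 h).2 ((memSm y).1 hy.1).2
        constructor
        · intro h
          exact absurd ((memS1 y).2 ⟨hy.1, x, mem_sdiff.2 hx, h.symm⟩) hy.2
        · rintro (⟨_, h | h⟩ | ⟨h, _⟩)
          · exact absurd h hyQ
          · exact absurd h hyF
          · exact absurd h hxS
      · have hyQ := ((memQ0 y).1 hy).1
        have hne : x ≠ y := by rintro rfl; exact hx.2 hy
        exact ⟨fun _ => Or.inl ⟨hx.1, Or.inl hyQ⟩, fun _ => hQ x hx.1 y hyQ hne⟩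
      · have hyF : y ∉ Fu := fun h => hMI y ((memFu y).1 h).1 hy
        have hn := hQI' x hx.1 y hy
        constructor
        · intro h; exact absurd h hn
        · rintro (⟨_, h | h⟩ | ⟨h, _⟩)
          · exfalso
            obtain ⟨z, hz, hne⟩ : ∃ z ∈ Q, z ≠ y := by
              by_contra hcon
              push Not at hcon
              have : Q.card ≤ ({y} : Finset V).card := card_le_card (by
                intro z hz; rw [mem_singleton]; exact hcon z hz)
              rw [card_singleton] at this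
              omega
            exact hQI' z hz y hy (hQ z hz y h hne)
          · exact absurd h hyF
          · exact absurd h hxS
    · have hxS := ((memS1 x).1 hx).1
      have hxM := ((memSm x).1 hxS)
      have hxQ := hMQ x hxM.1
      rcases hy with (hy | hy) | hy | hy
      · have hyS : y ∉ Sm := fun h => ((memFu y).1 hy).2 ((memSm y).1 h).2
        have hn := hS1F x hx y hy
        constructor
        · intro h; exact absurd h hn
        · rintro (⟨h, _⟩ | ⟨_, h⟩)
          · exact absurd h hxQ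
          · exact absurd h hyS
      · have hyM := (memSm y).1 hy.1
        have hne : x ≠ y := by rintro rfl; exact hy.2 hx
        exact ⟨fun _ => Or.inr ⟨hxS, hy.1⟩, fun _ => hSmall x hxM.1 hxM.2 y hyM.1 hyM.2 hne⟩
      · have hyS : y ∉ Sm := fun h => hMQ y ((memSm y).1 h).1 ((memQ0 y).1 hy).1
        have hn := hS1Q x hx y hy
        constructor
        · intro h; exact absurd h hn
        · rintro (⟨h, _⟩ | ⟨_, h⟩)
          · exact absurd h hxQ
          · exact absurd h hyS
      · have hyS : y ∉ Sm := fun h => hMI y ((memSm y).1 h).1 hy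
        have hn := hSI x hxM.1 hxM.2 y hy
        constructor
        · intro h; exact absurd h hn
        · rintro (⟨h, _⟩ | ⟨_, h⟩)
          · exact absurd h hxQ
          · exact absurd h hyS

end Pool.Agent.H9Z
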